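import Mathlib
import Pool.Agent.helper68.B2.Defs
import Pool.Agent.helper25.B2.Block
import Pool.Agent.helper25.B2.TDefs
import Pool.Agent.helper71.B2.T2a

/-! # MP_b2b189_gt: module T3a, simple real eigenvalues (smoothness, existence, differential) -/

set_option autoImplicit false

namespace Pool.Agent.helper68.B2

open scoped ContDiff Topology Matrix
open Matrix Set Filter

theorem T3a_entry (n : ℕ∞ω) (i j : Fin 3) : ContDiff ℝ n (fun A : M3 => A i j) := by
  exact (LinearMap.toContinuousLinearMap (Matrix.entryLinearMap ℝ ℝ i j)).contDiff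

theorem T3a_det_smooth (n : ℕ∞ω) : ContDiff ℝ n (fun A : M3 => A.det) := by
  have h := T3a_entry n
  have e : (fun A : M3 => A.det) = fun A : M3 => A 0 0 * A 1 1 * A 2 2 - A 0 0 * A 1 2 * A 2 1
      - A 0 1 * A 1 0 * A 2 2 + A 0 1 * A 1 2 * A 2 0 + A 0 2 * A 1 0 * A 2 1 - A 0 2 * A 1 1 * A 2 0 := by
    funext A
    exact Matrix.det_fin_three A
  rw [e]
  exact (((((((h 0 0).mul (h 1 1)).mul (h 2 2)).sub (((h 0 0).mul (h 1 2)).mul (h 2 1))).sub
    (((h 0 1).mul (h 1 0)).mul (h 2 2))).add (((h 0 1).mul (h 1 2)).mul (h 2 0))).add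
    (((h 0 2).mul (h 1 0)).mul (h 2 1))).sub (((h 0 2).mul (h 1 1)).mul (h 2 0))

theorem T3a_trace_smooth (n : ℕ∞ω) : ContDiff ℝ n (fun A : M3 => A.trace) := by
  have h := T3a_entry n
  have e : (fun A : M3 => A.trace) = fun A : M3 => A 0 0 + A 1 1 + A 2 2 := by
    funext A
    exact Matrix.trace_fin_three A
  rw [e]
  exact ((h 0 0).add (h 1 1)).add (h 2 2)

theorem T3a_adj_trace (A : M3) : A.adjugate.trace = A 1 1 * A 2 2 - A 1 2 * A 2 1
    + (A 0 0 * A 2 2 - A 0 2 * A 2 0) + (A 0 0 * A 1 1 - A 0 1 * A 1 0) := by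
  rw [Matrix.trace_fin_three, Matrix.adjugate_fin_three]
  simp

theorem T3a_adj_smooth (n : ℕ∞ω) : ContDiff ℝ n (fun A : M3 => A.adjugate.trace) := by
  have h := T3a_entry n
  have e : (fun A : M3 => A.adjugate.trace) = fun A : M3 => A 1 1 * A 2 2 - A 1 2 * A 2 1
    + (A 0 0 * A 2 2 - A 0 2 * A 2 0) + (A 0 0 * A 1 1 - A 0 1 * A 1 0) := by
    funext A
    exact T3a_adj_trace A
  rw [e]
  exact ((((h 1 1).mul (h 2 2)).sub ((h 1 2).mul (h 2 1))).add
    (((h 0 0).mul (h 2 2)).sub ((h 0 2).mul (h 2 0)))).add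
    (((h 0 0).mul (h 1 1)).sub ((h 0 1).mul (h 1 0)))

theorem T3a_det_expand (A : M3) (t : ℝ) :
    (A - t • (1 : M3)).det = A.det - t * A.adjugate.trace + t ^ 2 * A.trace - t ^ 3 := by
  rw [T3a_adj_trace, Matrix.trace_fin_three, Matrix.det_fin_three, Matrix.det_fin_three]
  simp [Matrix.sub_apply, Matrix.smul_apply]
  ring

theorem T3a_adj_expand (A : M3) (t : ℝ) :
    (A - t • (1 : M3)).adjugate.trace = A.adjugate.trace - 2 * t * A.trace + 3 * t ^ 2 := by
  rw [T3a_adj_trace, T3a_adj_trace, Matrix.trace_fin_three]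
  simp [Matrix.sub_apply, Matrix.smul_apply]
  ring

/-- the function `(x, t) ↦ det (L x - t)` -/
noncomputable def T3a_F (S : Geo) (p : E4 × ℝ) : ℝ :=
  (S.L p.1).det - p.2 * (S.L p.1).adjugate.trace + p.2 ^ 2 * (S.L p.1).trace - p.2 ^ 3

theorem T3a_F_eq (S : Geo) (x : E4) (t : ℝ) : T3a_F S (x, t) = (S.L x - t • (1 : M3)).det := by
  rw [T3a_det_expand]
  rfl

theorem T3a_L_smooth (S : Geo) {x : E4} (hx : x ≠ 0) : ContDiffAt ℝ ∞ S.L x :=
  (S.smL x hx).contDiffAt (isOpen_compl_singleton.mem_nhds hx)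

theorem T3a_F_smooth (S : Geo) {x : E4} (hx : x ≠ 0) (t : ℝ) : ContDiffAt ℝ ∞ (T3a_F S) (x, t) := by
  have hL : ContDiffAt ℝ ∞ (fun p : E4 × ℝ => S.L p.1) (x, t) :=
    ContDiffAt.comp (x, t) (T3a_L_smooth S hx) contDiffAt_fst
  have h1 : ContDiffAt ℝ ∞ (fun p : E4 × ℝ => (S.L p.1).det) (x, t) :=
    (T3a_det_smooth ∞).contDiffAt.comp (x, t) hL
  have h2 : ContDiffAt ℝ ∞ (fun p : E4 × ℝ => (S.L p.1).adjugate.trace) (x, t) :=
    (T3a_adj_smooth ∞).contDiffAt.comp (x, t) hL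
  have h3 : ContDiffAt ℝ ∞ (fun p : E4 × ℝ => (S.L p.1).trace) (x, t) :=
    (T3a_trace_smooth ∞).contDiffAt.comp (x, t) hL
  unfold T3a_F
  fun_prop

/-- the partial derivative in `t` -/
theorem T3a_F_dt (S : Geo) {x : E4} (hx : x ≠ 0) (t : ℝ) :
    (fderiv ℝ (T3a_F S) (x, t) ∘L .inr ℝ E4 ℝ) = (-(S.L x - t • (1 : M3)).adjugate.trace) •
      (ContinuousLinearMap.id ℝ ℝ) := by
  apply ContinuousLinearMap.ext_ring
  have hd : DifferentiableAt ℝ (T3a_F S) (x, t) := (T3a_F_smooth S hx t).differentiableAt (by simp)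
  have h1 : HasDerivAt (fun s : ℝ => T3a_F S (x, s)) (fderiv ℝ (T3a_F S) (x, t) (0, 1)) t := by
    have hc : HasDerivAt (fun s : ℝ => (x, s)) ((0 : E4), (1 : ℝ)) t :=
      (hasDerivAt_const t x).prodMk (hasDerivAt_id t)
    exact hd.hasFDerivAt.comp_hasDerivAt t hc
  have h2 : HasDerivAt (fun s : ℝ => T3a_F S (x, s))
      (-((S.L x).adjugate.trace) + 2 * t * (S.L x).trace - 3 * t ^ 2) t := by
    unfold T3a_F
    have h3 := ((((hasDerivAt_const t ((S.L x).det)).sub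
      ((hasDerivAt_id t).mul_const ((S.L x).adjugate.trace))).add
      (((hasDerivAt_id t).pow 2).mul_const ((S.L x).trace))).sub ((hasDerivAt_id t).pow 3))
    refine h3.congr_deriv ?_
    simp
  have h3 := h1.unique h2
  rw [T3a_adj_expand]
  simp only [ContinuousLinearMap.coe_comp, Function.comp_apply, ContinuousLinearMap.inr_apply]
  rw [h3]
  simp
  ring

theorem T3a_inv {c : ℝ} (hc : c ≠ 0) : (c • (ContinuousLinearMap.id ℝ ℝ)).IsInvertible := by
  refine ⟨ContinuousLinearEquiv.unitsEquivAut ℝ (Units.mk0 c hc), ?_⟩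
  apply ContinuousLinearMap.ext_ring
  simp

/-- a continuous simple root of the characteristic polynomial is smooth -/
theorem T3_smooth (S : Geo) {W : Set E4} (hW : IsOpen W) (h0 : (0 : E4) ∉ W) {μ : E4 → ℝ}
    (hμ : ContinuousOn μ W) (hroot : ∀ x ∈ W, (S.L x - μ x • (1 : M3)).det = 0)
    (hsimple : ∀ x ∈ W, (S.L x - μ x • (1 : M3)).adjugate.trace ≠ 0) : ContDiffOn ℝ ∞ μ W := by
  intro x hx
  apply ContDiffAt.contDiffWithinAt
  have hx0 : x ≠ 0 := by
    rintro rfl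
    exact h0 hx
  have hF := T3a_F_smooth S hx0 (μ x)
  have hinv : (fderiv ℝ (T3a_F S) (x, μ x) ∘L .inr ℝ E4 ℝ).IsInvertible := by
    rw [T3a_F_dt S hx0]
    exact T3a_inv (neg_ne_zero.2 (hsimple x hx))
  have hn : (∞ : ℕ∞ω) ≠ 0 := by simp
  have h1 := hF.contDiffAt_implicitFunction hn hinv
  refine h1.congr_of_eventuallyEq ?_
  have h2 := hF.eventually_apply_eq_iff_implicitFunction hn hinv
  have hc : Tendsto (fun y => (y, μ y)) (𝓝 x) (𝓝 (x, μ x)) := by
    have : ContinuousAt μ x := hμ.continuousAt (hW.mem_nhds hx)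
    exact (continuousAt_id.prodMk this)
  filter_upwards [hc.eventually h2, hW.mem_nhds hx] with y hy hyW
  have e1 : T3a_F S (y, μ y) = T3a_F S (x, μ x) := by
    rw [T3a_F_eq, T3a_F_eq, hroot y hyW, hroot x hx]
  exact (hy.1 e1).symm

theorem T3_exists (S : Geo) {q : E4} (hq : q ≠ 0) {μ₀ : ℝ} (hroot : (S.L q - μ₀ • (1 : M3)).det = 0)
    (hsimple : (S.L q - μ₀ • (1 : M3)).adjugate.trace ≠ 0) :
    ∃ (W : Set E4) (μ : E4 → ℝ), OCone W ∧ q ∈ W ∧ Hom μ ∧ μ q = μ₀ ∧ ContDiffOn ℝ ∞ μ W ∧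
      ∀ x ∈ W, (S.L x - μ x • (1 : M3)).det = 0 ∧ (S.L x - μ x • (1 : M3)).adjugate.trace ≠ 0 := by
  have hF := T3a_F_smooth S hq μ₀
  have hinv : (fderiv ℝ (T3a_F S) (q, μ₀) ∘L .inr ℝ E4 ℝ).IsInvertible := by
    rw [T3a_F_dt S hq]
    exact T3a_inv (neg_ne_zero.2 hsimple)
  have hn : (∞ : ℕ∞ω) ≠ 0 := by simp
  have h1 := hF.contDiffAt_implicitFunction hn hinv
  have h2 := hF.eventually_apply_implicitFunction hn hinv
  have h3 := hF.implicitFunction_apply_self hn hinv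
  set ψ := hF.implicitFunction hn hinv with hψ
  simp only at h1 h2 h3
  -- the good neighbourhood
  have hcont : ContinuousAt ψ q := h1.continuousAt
  have hLc : ContinuousAt S.L q := (T3a_L_smooth S hq).continuousAt
  have htr : ContinuousAt (fun y => (S.L y - ψ y • (1 : M3)).adjugate.trace) q := by
    have e : (fun y => (S.L y - ψ y • (1 : M3)).adjugate.trace) =
        fun y => (S.L y).adjugate.trace - 2 * ψ y * (S.L y).trace + 3 * ψ y ^ 2 := by
      funext y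
      exact T3a_adj_expand _ _
    rw [e]
    have c1 : ContinuousAt (fun y => (S.L y).adjugate.trace) q :=
      (T3a_adj_smooth 0).continuous.continuousAt.comp hLc
    have c2 : ContinuousAt (fun y => (S.L y).trace) q :=
      (T3a_trace_smooth 0).continuous.continuousAt.comp hLc
    exact (c1.sub ((hcont.const_mul 2).mul c2)).add ((hcont.pow 2).const_mul 3)
  have hev : ∀ᶠ y in 𝓝 q, ContDiffAt ℝ ∞ ψ y ∧ (S.L y - ψ y • (1 : M3)).det = 0 ∧
      (S.L y - ψ y • (1 : M3)).adjugate.trace ≠ 0 := by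
    have h4 : ∀ᶠ y in 𝓝 q, (S.L y - ψ y • (1 : M3)).adjugate.trace ≠ 0 := by
      apply htr.eventually_ne
      rw [h3]
      exact hsimple
    have h5 : ∀ᶠ y in 𝓝 q, ContinuousAt ψ y := by
      have := (h1.of_le (m := 1) (by simp)).eventually (by simp)
      filter_upwards [this] with y hy using hy.continuousAt
    have hq0 : ∀ᶠ y in 𝓝 q, y ≠ 0 := isOpen_compl_singleton.mem_nhds hq
    have hdet : ∀ᶠ y in 𝓝 q, (S.L y - ψ y • (1 : M3)).det = 0 := by
      filter_upwards [h2] with y hy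
      rw [← T3a_F_eq, hy, T3a_F_eq, hroot]
    obtain ⟨V, hV, hVo, hqV⟩ := eventually_nhds_iff.1 (h4.and (h5.and (hq0.and hdet)))
    have hsm : ContDiffOn ℝ ∞ ψ V := by
      apply T3_smooth S hVo
      · intro h0
        exact (hV 0 h0).2.2.1 rfl
      · intro y hy
        exact (hV y hy).2.1.continuousWithinAt
      · intro y hy
        exact (hV y hy).2.2.2
      · intro y hy
        exact (hV y hy).1
    filter_upwards [hVo.mem_nhds hqV] with y hy
    exact ⟨(hsm y hy).contDiffAt (hVo.mem_nhds hy), (hV y hy).2.2.2, (hV y hy).1⟩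
  obtain ⟨V, hV, hVo, hqV⟩ := eventually_nhds_iff.1 hev
  let N : E4 → E4 := fun x => (‖q‖ / ‖x‖) • x
  have hNq : N q = q := by
    simp only [N]
    rw [div_self (norm_ne_zero_iff.2 hq), one_smul]
  have hNh : ∀ t : ℝ, 0 < t → ∀ x, N (t • x) = N x := by
    intro t ht x
    simp only [N]
    rw [norm_smul, Real.norm_of_nonneg ht.le, smul_smul]
    congr 1
    rcases eq_or_ne ‖x‖ 0 with h | h
    · rw [h]; simp
    · field_simp
  have hNs : ∀ x, x ≠ 0 → ContDiffAt ℝ ∞ N x := by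
    intro x hx
    have : ‖x‖ ≠ 0 := norm_ne_zero_iff.2 hx
    exact ((contDiffAt_const).div (contDiffAt_norm ℝ hx) this).smul contDiffAt_id
  have hLN : ∀ x, x ≠ 0 → S.L (N x) = S.L x := by
    intro x hx
    apply S.homL
    have h5 : 0 < ‖x‖ := norm_pos_iff.2 hx
    have h6 : 0 < ‖q‖ := norm_pos_iff.2 hq
    positivity
  refine ⟨{x | x ≠ 0 ∧ N x ∈ V}, fun x => ψ (N x), ⟨?_, ?_, ?_⟩, ?_, ?_, ?_, ?_, ?_⟩
  · rw [isOpen_iff_mem_nhds]
    rintro x ⟨hx, hxV⟩
    have h7 : ∀ᶠ y in 𝓝 x, y ≠ 0 := isOpen_compl_singleton.mem_nhds hx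
    have h8 : ∀ᶠ y in 𝓝 x, N y ∈ V := (hNs x hx).continuousAt.eventually (hVo.mem_nhds hxV)
    exact h7.and h8
  · rintro ⟨h, -⟩
    exact h rfl
  · rintro x ⟨hx, hxV⟩ t ht
    exact ⟨smul_ne_zero ht.ne' hx, by rw [hNh t ht]; exact hxV⟩
  · exact ⟨hq, by rw [hNq]; exact hqV⟩
  · intro t ht x
    simp only
    rw [hNh t ht]
  · simp only
    rw [hNq, h3]
  · rintro x ⟨hx, hxV⟩
    apply ContDiffAt.contDiffWithinAt
    exact (hV _ hxV).1.comp x (hNs x hx)
  · rintro x ⟨hx, hxV⟩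
    have h9 := (hV _ hxV).2
    rw [hLN x hx] at h9
    exact h9

/-- differential of a simple root -/
theorem T3_d (S : Geo) {W : Set E4} (hW : IsOpen W) (h0 : (0 : E4) ∉ W) {μ : E4 → ℝ}
    (hμ : ContDiffOn ℝ ∞ μ W) (hroot : ∀ x ∈ W, (S.L x - μ x • (1 : M3)).det = 0) {x : E4} (hx : x ∈ W)
    (v : V3) :
    (S.L x - μ x • (1 : M3)).adjugate.trace * Dv μ v x = 2 * S.g x (S.K (μ x) x *ᵥ S.lam x) v := by
  have hx0 : x ≠ 0 := by
    rintro rfl
    exact h0 hx
  rw [← d_det S hx0 (μ x) v]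
  have hF : DifferentiableAt ℝ (T3a_F S) (x, μ x) := (T3a_F_smooth S hx0 (μ x)).differentiableAt (by simp)
  have hm : DifferentiableAt ℝ μ x := ((hμ x hx).contDiffAt (hW.mem_nhds hx)).differentiableAt (by simp)
  have e1 : fderiv ℝ (fun y => T3a_F S (y, μ y)) x = 0 := by
    have : (fun y => T3a_F S (y, μ y)) =ᶠ[𝓝 x] fun _ => 0 := by
      filter_upwards [hW.mem_nhds hx] with y hy
      rw [T3a_F_eq]
      exact hroot y hy
    rw [this.fderiv_eq]
    simp
  have e2 : HasFDerivAt (fun y => T3a_F S (y, μ y))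
      ((fderiv ℝ (T3a_F S) (x, μ x)).comp ((ContinuousLinearMap.id ℝ E4).prod (fderiv ℝ μ x))) x := by
    have hpr : HasFDerivAt (fun y : E4 => (y, μ y))
        ((ContinuousLinearMap.id ℝ E4).prod (fderiv ℝ μ x)) x :=
      (hasFDerivAt_id x).prodMk hm.hasFDerivAt
    exact hF.hasFDerivAt.comp x hpr
  have e3 : HasFDerivAt (fun y => T3a_F S (y, μ x))
      ((fderiv ℝ (T3a_F S) (x, μ x)).comp ((ContinuousLinearMap.id ℝ E4).prod 0)) x := by
    have hpr : HasFDerivAt (fun y : E4 => (y, μ x))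
        ((ContinuousLinearMap.id ℝ E4).prod (0 : E4 →L[ℝ] ℝ)) x :=
      (hasFDerivAt_id x).prodMk (hasFDerivAt_const (μ x) x)
    have hF' : HasFDerivAt (T3a_F S) (fderiv ℝ (T3a_F S) (x, μ x)) ((fun y : E4 => (y, μ x)) x) :=
      hF.hasFDerivAt
    exact hF'.comp x hpr
  have e4 : (fun y => (S.L y - μ x • (1 : M3)).det) = fun y => T3a_F S (y, μ x) := by
    funext y
    rw [T3a_F_eq]
  rw [e4]
  unfold Dv
  rw [e3.fderiv]
  rw [e2.fderiv] at e1
  have e5 := congrArg (fun A => A (fld v x)) e1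
  simp only [ContinuousLinearMap.coe_comp, Function.comp_apply, ContinuousLinearMap.prod_apply,
    ContinuousLinearMap.coe_id', id_eq, _root_.zero_apply] at e5 ⊢
  have e6 := congrArg (fun A => A (fderiv ℝ μ x (fld v x))) (T3a_F_dt S hx0 (μ x))
  simp only [ContinuousLinearMap.coe_comp, Function.comp_apply, ContinuousLinearMap.inr_apply,
    FunLike.coe_smul, Pi.smul_apply, ContinuousLinearMap.coe_id', id_eq, smul_eq_mul] at e6
  have e7 : (fld v x, fderiv ℝ μ x (fld v x)) = (fld v x, (0 : ℝ)) + (0, fderiv ℝ μ x (fld v x)) := by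
    simp
  rw [e7, map_add, e6] at e5
  linarith

end Pool.Agent.helper68.B2
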