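import Mathlib
import Pool.Agent.helper68.B2.Defs
import Pool.Agent.helper25.B2.Block
import Pool.Agent.helper25.B2.TDefs
import Pool.Agent.helper97.B2.T3a
import Pool.Agent.helper9.B2.T1b

/-! # MP_b2b189_gt: module T3b, root fields of simple real eigenvalues -/

set_option autoImplicit false

namespace Pool.Agent.helper68.B2

open scoped ContDiff Topology Matrix
open Matrix Set Filter

theorem T3b_adj_formula (A : M3) :
    A.adjugate = A * A - A.trace • A + ((A.trace ^ 2 - (A * A).trace) / 2) • (1 : M3) := by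
  rw [Matrix.trace_fin_three, Matrix.trace_fin_three, Matrix.adjugate_fin_three]
  ext i j
  fin_cases i <;> fin_cases j <;>
    simp [Matrix.mul_apply, Fin.sum_univ_three, Matrix.smul_apply, Matrix.sub_apply,
      Matrix.add_apply] <;> ring

theorem T3b_adj_smooth (n : ℕ∞ω) : ContDiff ℝ n (fun A : M3 => A.adjugate) := by
  have e : (fun A : M3 => A.adjugate) = fun A : M3 =>
      A * A - A.trace • A + ((A.trace ^ 2 - (A * A).trace) / 2) • (1 : M3) := by
    funext A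
    exact T3b_adj_formula A
  rw [e]
  have h1 : ContDiff ℝ n (fun A : M3 => A * A) := contDiff_id.mul contDiff_id
  have h2 := T3a_trace_smooth n
  have h3 : ContDiff ℝ n (fun A : M3 => (A * A).trace) := h2.comp h1
  exact (h1.sub (h2.smul contDiff_id)).add ((((h2.pow 2).sub h3).div_const 2).smul contDiff_const)

theorem T3b_adj_comm {G A : M3} (hG : Gᵀ = G) (hA : (G * A)ᵀ = G * A) :
    G.adjugate * (A.adjugate)ᵀ = A.adjugate * G.adjugate := by
  have h1 : Aᵀ * G = G * A := by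
    rw [← hA, Matrix.transpose_mul, hG]
  have := congrArg Matrix.adjugate h1
  rw [Matrix.adjugate_mul_distrib, Matrix.adjugate_mul_distrib, ← Matrix.adjugate_transpose] at this
  exact this

/-- `adj` of a self-adjoint matrix is self-adjoint -/
theorem T3b_adj_sa {G A : M3} (hG : Gᵀ = G) (hdet : G.det ≠ 0) (hA : (G * A)ᵀ = G * A) :
    (G * A.adjugate)ᵀ = G * A.adjugate := by
  have h2 := T3b_adj_comm hG hA
  have h3 : G * (G.adjugate * (A.adjugate)ᵀ) * G = G * (A.adjugate * G.adjugate) * G := by rw [h2]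
  rw [← Matrix.mul_assoc, Matrix.mul_adjugate, Matrix.smul_mul, Matrix.one_mul, Matrix.smul_mul,
    Matrix.mul_assoc, Matrix.mul_assoc, Matrix.adjugate_mul, Matrix.mul_smul, Matrix.mul_smul,
    Matrix.mul_one] at h3
  rw [Matrix.transpose_mul, hG]
  exact smul_right_injective _ hdet h3

theorem T3b_SA (S : Geo) {x : E4} (hx : x ≠ 0) (t : ℝ) :
    (S.G x * (S.L x - t • (1 : M3)))ᵀ = S.G x * (S.L x - t • (1 : M3)) := by
  rw [Matrix.mul_sub, Matrix.transpose_sub, S.selfadj x hx, Matrix.mul_smul, Matrix.mul_one,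
    Matrix.transpose_smul, S.symm x hx]

theorem T3b_K_sa (S : Geo) {x : E4} (hx : x ≠ 0) (t : ℝ) :
    (S.G x * S.K t x)ᵀ = S.G x * S.K t x :=
  T3b_adj_sa (S.symm x hx) (S.det_neg x hx).ne (T3b_SA S hx t)

theorem T3b_g_K (S : Geo) {x : E4} (hx : x ≠ 0) (t : ℝ) (v w : V3) :
    S.g x (S.K t x *ᵥ v) w = S.g x v (S.K t x *ᵥ w) := by
  unfold Geo.g bil
  have h := T3b_K_sa S hx t
  rw [Matrix.transpose_mul, S.symm x hx] at h
  rw [Matrix.mulVec_mulVec, ← h, ← Matrix.mulVec_mulVec, Matrix.dotProduct_mulVec v,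
    Matrix.vecMul_transpose]

theorem T3b_minor {N : M3} (h : N.adjugate = 0) (i j k l : Fin 3) :
    N i j * N k l = N i l * N k j := by
  rw [Matrix.adjugate_fin_three] at h
  have h00 := congrFun (congrFun h 0) 0
  have h01 := congrFun (congrFun h 0) 1
  have h02 := congrFun (congrFun h 0) 2
  have h10 := congrFun (congrFun h 1) 0
  have h11 := congrFun (congrFun h 1) 1
  have h12 := congrFun (congrFun h 1) 2
  have h20 := congrFun (congrFun h 2) 0
  have h21 := congrFun (congrFun h 2) 1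
  have h22 := congrFun (congrFun h 2) 2
  simp at h00 h01 h02 h10 h11 h12 h20 h21 h22
  fin_cases i <;> fin_cases j <;> fin_cases k <;> fin_cases l <;> simp <;> linarith

/-- the contravariant rank one matrix, up to the factor `det G` -/
noncomputable def T3b_N (S : Geo) (μ : E4 → ℝ) (x : E4) : M3 :=
  (S.L x - μ x • (1 : M3)).adjugate * (S.G x).adjugate

noncomputable def T3b_D (S : Geo) (μ : E4 → ℝ) (i : Fin 3) (x : E4) : ℝ :=
  (S.G x).det * T3b_N S μ x i i

noncomputable def T3b_T (S : Geo) (μ : E4 → ℝ) (i : Fin 3) (σ : ℝ) (x : E4) : V3 :=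
  fun j => (Real.sqrt (σ * T3b_D S μ i x))⁻¹ * T3b_N S μ x j i

theorem T3b_N_symm (S : Geo) (μ : E4 → ℝ) {x : E4} (hx : x ≠ 0) : (T3b_N S μ x)ᵀ = T3b_N S μ x := by
  unfold T3b_N
  rw [Matrix.transpose_mul, Matrix.adjugate_transpose, S.symm x hx]
  exact T3b_adj_comm (S.symm x hx) (T3b_SA S hx (μ x))

theorem T3b_N_adj (S : Geo) {μ : E4 → ℝ} {x : E4} (h : (S.L x - μ x • (1 : M3)).det = 0) :
    (T3b_N S μ x).adjugate = 0 := by
  unfold T3b_N
  rw [Matrix.adjugate_mul_distrib, Matrix.adjugate_adjugate (S.L x - μ x • (1 : M3)) (by simp), h]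
  simp

theorem T3b_N_mul (S : Geo) (μ : E4 → ℝ) (x : E4) :
    T3b_N S μ x * S.G x = (S.G x).det • (S.L x - μ x • (1 : M3)).adjugate := by
  unfold T3b_N
  rw [Matrix.mul_assoc, Matrix.adjugate_mul, Matrix.mul_smul, Matrix.mul_one]

theorem T3b_K_eq (S : Geo) {μ : E4 → ℝ} {x : E4} (hx : x ≠ 0) (h : (S.L x - μ x • (1 : M3)).det = 0)
    {i : Fin 3} {σ : ℝ} (hσ : σ = 1 ∨ σ = -1) (hd : 0 < σ * T3b_D S μ i x) :
    (S.L x - μ x • (1 : M3)).adjugate =
      σ • vecMulVec (T3b_T S μ i σ x) (S.G x *ᵥ T3b_T S μ i σ x) := by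
  have hG : (S.G x).det ≠ 0 := (S.det_neg x hx).ne
  have hσ2 : σ * σ = 1 := by
    rcases hσ with h | h <;> rw [h] <;> norm_num
  have hD : T3b_D S μ i x ≠ 0 := by
    intro h0
    rw [h0] at hd
    simp at hd
  have hN : T3b_N S μ x i i ≠ 0 := by
    intro h0
    apply hD
    unfold T3b_D
    rw [h0, mul_zero]
  have hsq : Real.sqrt (σ * T3b_D S μ i x) * Real.sqrt (σ * T3b_D S μ i x) = σ * T3b_D S μ i x :=
    Real.mul_self_sqrt hd.le
  have hs0 : Real.sqrt (σ * T3b_D S μ i x) ≠ 0 := (Real.sqrt_pos.2 hd).ne'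
  apply smul_right_injective _ hG
  simp only
  rw [← T3b_N_mul]
  have hsymm := T3b_N_symm S μ hx
  have hsymm' : ∀ a b, T3b_N S μ x a b = T3b_N S μ x b a := fun a b => congrFun (congrFun hsymm b) a
  have hmin := T3b_minor (T3b_N_adj S h)
  ext j k
  have e1 : ∀ l, T3b_N S μ x j l = T3b_N S μ x j i * T3b_N S μ x l i / T3b_N S μ x i i := by
    intro l
    rw [eq_div_iff hN, hsymm' l i]
    exact hmin j l i i
  have hGs : ∀ a b, S.G x a b = S.G x b a := fun a b => congrFun (congrFun (S.symm x hx) b) a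
  rw [Matrix.mul_apply]
  simp only [Matrix.smul_apply, smul_eq_mul, Matrix.vecMulVec_apply, Matrix.mulVec, dotProduct]
  have e2 : ∀ l, T3b_N S μ x j l * S.G x l k =
      (T3b_N S μ x j i / T3b_N S μ x i i) * (S.G x k l * T3b_N S μ x l i) := by
    intro l
    rw [e1 l, hGs k l]
    ring
  rw [Finset.sum_congr rfl (fun l _ => e2 l), ← Finset.mul_sum]
  have e3 : ∑ l, S.G x k l * T3b_T S μ i σ x l =
      (Real.sqrt (σ * T3b_D S μ i x))⁻¹ * ∑ l, S.G x k l * T3b_N S μ x l i := by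
    rw [Finset.mul_sum]
    apply Finset.sum_congr rfl
    intro l _
    unfold T3b_T
    ring
  rw [e3]
  set Q := ∑ l, S.G x k l * T3b_N S μ x l i with hQ
  unfold T3b_T
  have e4 : (S.G x).det * (σ * ((Real.sqrt (σ * T3b_D S μ i x))⁻¹ * T3b_N S μ x j i *
      ((Real.sqrt (σ * T3b_D S μ i x))⁻¹ * Q))) =
      (S.G x).det * σ * T3b_N S μ x j i * Q *
        (Real.sqrt (σ * T3b_D S μ i x) * Real.sqrt (σ * T3b_D S μ i x))⁻¹ := by
    rw [mul_inv]
    ring
  rw [e4, hsq]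
  have hσ0 : σ ≠ 0 := by
    rcases hσ with h | h <;> rw [h] <;> norm_num
  unfold T3b_D
  field_simp

theorem T3b_N_smooth (S : Geo) {W : Set E4} (hW : OCone W) {μ : E4 → ℝ} (hμ : ContDiffOn ℝ ∞ μ W) :
    ContDiffOn ℝ ∞ (T3b_N S μ) W := by
  have hsub : W ⊆ {0}ᶜ := by
    intro x hx h0
    rw [mem_singleton_iff] at h0
    exact hW.zero (h0 ▸ hx)
  have h1 : ContDiffOn ℝ ∞ (fun x => S.L x - μ x • (1 : M3)) W :=
    (S.smL.mono hsub).sub (hμ.smul contDiffOn_const)
  have h2 : ContDiffOn ℝ ∞ (fun x => (S.L x - μ x • (1 : M3)).adjugate) W :=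
    (T3b_adj_smooth ∞).comp_contDiffOn h1
  have h3 : ContDiffOn ℝ ∞ (fun x => (S.G x).adjugate) W :=
    (T3b_adj_smooth ∞).comp_contDiffOn (S.smG.mono hsub)
  exact h2.mul h3

theorem T3b_D_smooth (S : Geo) {W : Set E4} (hW : OCone W) {μ : E4 → ℝ} (hμ : ContDiffOn ℝ ∞ μ W)
    (i : Fin 3) : ContDiffOn ℝ ∞ (T3b_D S μ i) W := by
  have hsub : W ⊆ {0}ᶜ := by
    intro x hx h0
    rw [mem_singleton_iff] at h0
    exact hW.zero (h0 ▸ hx)
  exact ((T3a_det_smooth ∞).comp_contDiffOn (S.smG.mono hsub)).mul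
    ((T3a_entry ∞ i i).comp_contDiffOn (T3b_N_smooth S hW hμ))

/-- `T` is a root field of the simple eigenvalue `μ` on the open cone `W`, with sign `σ` -/
theorem T3_root_exists (S : Geo) {W : Set E4} (hW : OCone W) {μ : E4 → ℝ} (hμh : Hom μ)
    (hμ : ContDiffOn ℝ ∞ μ W) (hroot : ∀ x ∈ W, (S.L x - μ x • (1 : M3)).det = 0)
    (hsimple : ∀ x ∈ W, (S.L x - μ x • (1 : M3)).adjugate.trace ≠ 0) {q : E4} (hq : q ∈ W) :
    ∃ (W' : Set E4) (σ : ℝ) (T : E4 → V3), W' ⊆ W ∧ q ∈ W' ∧ IsRoot S W' μ σ T := by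
  have hne : ∀ x ∈ W, x ≠ 0 := by
    rintro x hx rfl
    exact hW.zero hx
  -- a nonzero diagonal entry
  have hdiag : ∃ i, T3b_N S μ q i i ≠ 0 := by
    by_contra hcon
    push Not at hcon
    have hN : T3b_N S μ q = 0 := by
      ext i j
      have h1 := T3b_minor (T3b_N_adj S (hroot q hq)) i j j i
      rw [hcon i, zero_mul] at h1
      have h2 : T3b_N S μ q j i = T3b_N S μ q i j :=
        congrFun (congrFun (T3b_N_symm S μ (hne q hq)) i) j
      rw [h2] at h1
      exact mul_self_eq_zero.1 h1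
    have h3 := T3b_N_mul S μ q
    rw [hN, Matrix.zero_mul] at h3
    have h4 : (S.L q - μ q • (1 : M3)).adjugate = 0 :=
      (smul_eq_zero.1 h3.symm).resolve_left (S.det_neg q (hne q hq)).ne
    apply hsimple q hq
    rw [h4]
    simp
  obtain ⟨i, hi⟩ := hdiag
  have hD : T3b_D S μ i q ≠ 0 := mul_ne_zero (S.det_neg q (hne q hq)).ne hi
  obtain ⟨σ, hσ, hσD⟩ : ∃ σ : ℝ, (σ = 1 ∨ σ = -1) ∧ 0 < σ * T3b_D S μ i q := by
    rcases lt_or_gt_of_ne hD with h | h
    · exact ⟨-1, Or.inr rfl, by linarith⟩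
    · exact ⟨1, Or.inl rfl, by linarith⟩
  have hNh : ∀ t : ℝ, 0 < t → ∀ x, T3b_N S μ (t • x) = T3b_N S μ x := by
    intro t ht x
    unfold T3b_N
    rw [S.homL t ht, S.homG t ht, hμh t ht]
  have hDh : ∀ t : ℝ, 0 < t → ∀ x, T3b_D S μ i (t • x) = T3b_D S μ i x := by
    intro t ht x
    unfold T3b_D
    rw [S.homG t ht, hNh t ht]
  refine ⟨{x | x ∈ W ∧ 0 < σ * T3b_D S μ i x}, σ, T3b_T S μ i σ, fun x hx => hx.1, ⟨hq, hσD⟩, ?_⟩
  refine ⟨⟨?_, ?_, ?_⟩, hμh, ?_, hμ.mono fun x hx => hx.1, ?_, hσ, fun x hx => hroot x hx.1,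
    fun x hx => hsimple x hx.1, fun x hx => T3b_K_eq S (hne x hx.1) (hroot x hx.1) hσ hx.2⟩
  · have hc : ContinuousOn (fun x => σ * T3b_D S μ i x) W :=
      continuousOn_const.mul (T3b_D_smooth S hW hμ i).continuousOn
    exact hc.isOpen_inter_preimage hW.isOpen isOpen_Ioi
  · exact fun h => hW.zero h.1
  · rintro x ⟨hx, hx2⟩ t ht
    refine ⟨hW.smul x hx t ht, ?_⟩
    rw [hDh t ht]
    exact hx2
  · intro t ht x
    funext j
    unfold T3b_T
    rw [hDh t ht, hNh t ht]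
  · rw [contDiffOn_pi]
    intro j
    have hsub : {x | x ∈ W ∧ 0 < σ * T3b_D S μ i x} ⊆ W := fun x hx => hx.1
    have h1 : ContDiffOn ℝ ∞ (fun x => σ * T3b_D S μ i x) {x | x ∈ W ∧ 0 < σ * T3b_D S μ i x} :=
      contDiffOn_const.mul ((T3b_D_smooth S hW hμ i).mono hsub)
    have h2 := h1.sqrt (fun x hx => hx.2.ne')
    have h3 := h2.inv (fun x hx => (Real.sqrt_pos.2 hx.2).ne')
    exact h3.mul ((T3a_entry ∞ j i).comp_contDiffOn ((T3b_N_smooth S hW hμ).mono hsub))

/-- the eigenvalue equation and the differentials -/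
theorem T3_eig (S : Geo) {W : Set E4} {μ : E4 → ℝ} {σ : ℝ} {T : E4 → V3} (h : IsRoot S W μ σ T) {x : E4}
    (hx : x ∈ W) (v : V3) :
    S.L x *ᵥ T x = μ x • T x ∧ σ * S.g x (T x) (T x) = (S.L x - μ x • (1 : M3)).adjugate.trace ∧
    S.g x (T x) (T x) ≠ 0 ∧
    Dv μ v x = 2 * S.g x (S.lam x) (T x) * S.g x (T x) v / S.g x (T x) (T x) := by
  have hx0 : x ≠ 0 := by
    rintro rfl
    exact h.cone.zero hx
  have hadj := h.adj x hx
  have htr : σ * S.g x (T x) (T x) = (S.L x - μ x • (1 : M3)).adjugate.trace := by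
    rw [hadj, Matrix.trace_smul, Matrix.trace_vecMulVec, smul_eq_mul]
    rfl
  have hgT : S.g x (T x) (T x) ≠ 0 := by
    intro h0
    rw [h0, mul_zero] at htr
    exact h.simple x hx htr.symm
  have hσ0 : σ ≠ 0 := by
    rcases h.sign with h | h <;> rw [h] <;> norm_num
  have hGT : S.G x *ᵥ T x ≠ 0 := by
    intro h0
    apply hgT
    unfold Geo.g bil
    rw [h0, dotProduct_zero]
  refine ⟨?_, htr, hgT, ?_⟩
  · have h1 : (S.L x - μ x • (1 : M3)) * (S.L x - μ x • (1 : M3)).adjugate = 0 := by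
      rw [Matrix.mul_adjugate, h.root x hx, zero_smul]
    rw [hadj, Matrix.mul_smul, Matrix.mul_vecMulVec] at h1
    have h2 := (smul_eq_zero.1 h1).resolve_left hσ0
    have h3 : (S.L x - μ x • (1 : M3)) *ᵥ T x = 0 := by
      obtain ⟨k, hk⟩ := Function.ne_iff.1 hGT
      funext j
      have h4 := congrFun (congrFun h2 j) k
      rw [Matrix.vecMulVec_apply] at h4
      exact (mul_eq_zero.1 h4).resolve_right hk
    rw [Matrix.sub_mulVec, Matrix.smul_mulVec, Matrix.one_mulVec, sub_eq_zero] at h3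
    exact h3
  · have h1 := T3_d S h.cone.isOpen h.cone.zero h.smμ h.root hx v
    rw [← htr] at h1
    have h2 : S.K (μ x) x *ᵥ S.lam x = (σ * S.g x (S.lam x) (T x)) • T x := by
      unfold Geo.K
      rw [hadj, Matrix.smul_mulVec, Matrix.vecMulVec_mulVec, op_smul_eq_smul, smul_smul]
      unfold Geo.g bil
      rw [dotProduct_comm (S.lam x)]
    rw [h2] at h1
    have h3 : S.g x ((σ * S.g x (S.lam x) (T x)) • T x) v = σ * S.g x (S.lam x) (T x) * S.g x (T x) v := by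
      unfold Geo.g bil
      rw [smul_dotProduct, smul_eq_mul]
    rw [h3] at h1
    rw [eq_div_iff hgT]
    have h4 : σ * (Dv μ v x * S.g x (T x) (T x)) = σ * (2 * S.g x (S.lam x) (T x) * S.g x (T x) v) := by
      linarith
    exact mul_left_cancel₀ hσ0 h4

/-- `T` differentiates the characteristic polynomial as if only the root `μ` moved -/
theorem T3_det (S : Geo) {W : Set E4} {μ : E4 → ℝ} {σ : ℝ} {T : E4 → V3} (h : IsRoot S W μ σ T)
    {x : E4} (hx : x ∈ W) (t : ℝ) :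
    (μ x - t) * Dv (fun y => (S.L y - t • (1 : M3)).det) (T x) x =
      2 * S.g x (S.lam x) (T x) * (S.L x - t • (1 : M3)).det := by
  have hx0 : x ≠ 0 := by
    rintro rfl
    exact h.cone.zero hx
  rw [d_det S hx0, T3b_g_K S hx0]
  have h1 : S.K t x *ᵥ ((S.L x - t • (1 : M3)) *ᵥ T x) = (S.L x - t • (1 : M3)).det • T x := by
    unfold Geo.K
    rw [Matrix.mulVec_mulVec, Matrix.adjugate_mul, Matrix.smul_mulVec, Matrix.one_mulVec]
  have h2 : (S.L x - t • (1 : M3)) *ᵥ T x = (μ x - t) • T x := by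
    rw [Matrix.sub_mulVec, (T3_eig S h hx 0).1, Matrix.smul_mulVec, Matrix.one_mulVec, sub_smul]
  rw [h2, Matrix.mulVec_smul] at h1
  have h3 := congrArg (fun w => S.g x (S.lam x) w) h1
  have h4 : ∀ (c : ℝ) (w : V3), S.g x (S.lam x) (c • w) = c * S.g x (S.lam x) w := by
    intro c w
    unfold Geo.g bil
    rw [Matrix.mulVec_smul, dotProduct_smul, smul_eq_mul]
  simp only [h4] at h3
  linarith

/-- covariant derivative of the root field -/
theorem T3_nab (S : Geo) {W : Set E4} {μ : E4 → ℝ} {σ : ℝ} {T : E4 → V3} (h : IsRoot S W μ σ T)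
    {x : E4} (hx : x ∈ W) (v : V3) :
    S.L x *ᵥ S.nab T v x - μ x • S.nab T v x =
      Dv μ v x • T x - (S.g x (S.lam x) (T x) • v + S.g x v (T x) • S.lam x) := by
  have hx0 : x ≠ 0 := by
    rintro rfl
    exact h.cone.zero hx
  have hnhds := h.cone.isOpen.mem_nhds hx
  have hT : DifferentiableAt ℝ T x := ((h.smT x hx).contDiffAt hnhds).differentiableAt (by simp)
  have hm : DifferentiableAt ℝ μ x := ((h.smμ x hx).contDiffAt hnhds).differentiableAt (by simp)
  have h1 := Pool.Agent.helper68.B2.T.nab_L S hx0 hT v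
  have h2 := Pool.Agent.helper68.B2.T.nab_smul S hm hT v
  have h3 : S.nab (fun y => S.L y *ᵥ T y) v x = S.nab (fun y => μ y • T y) v x := by
    have hev : (fun y => S.L y *ᵥ T y) =ᶠ[𝓝 x] fun y => μ y • T y := by
      filter_upwards [hnhds] with y hy
      exact (T3_eig S h hy 0).1
    unfold Geo.nab Dv
    rw [hev.fderiv_eq, hev.self_of_nhds]
  rw [h1, h2] at h3
  rw [sub_eq_sub_iff_add_eq_add, h3]

end Pool.Agent.helper68.B2
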