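import Pool.Agent.helper68.B2.Defs3
import Pool.Agent.helper58.B2.FU
import Pool.Agent.helper58.B2.FQ
import Pool.Agent.helper92.B2.BH
import Pool.Agent.helper49.B2.FR1
import Pool.Agent.helper49.B2.FR2

/-! # MP_b2b189_gt: module DX1, curves of `X` starting in `Gs` stay in `Gs` for a short time -/

set_option autoImplicit false

namespace Pool.Agent.helper68.B2

open scoped ContDiff Topology Matrix
open Matrix Set
open Pool.Agent.helper25.B2 (Sol Block)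

variable {S : Geo}

namespace Roots
variable (R : Roots S)

/-- the local data used by DX1, symmetric in the two null directions -/
structure DX1_Loc (B : Block E4) (z n : E4 → V3) : Prop where
  A : B.A
  N : B.W ⊆ R.N
  l : ∀ y ∈ B.W, B.l y = R.far y
  s : ∀ y ∈ B.W, B.s y = R.m y
  h : ∀ y ∈ B.W, B.h y = R.h y
  X : ∀ y ∈ B.W, R.X y = B.u y • z y + B.v y • n y
  Xg : ∀ y ∈ B.W, R.Xg y = B.u y • B.Np y + B.v y • B.Nm y
  S2 : ∀ y ∈ B.W, (y ∈ R.S2 ↔ B.a y * B.b y = 0)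
  Nn : ∀ y ∈ B.W, R.Nn y = B.a y • vecMulVec (z y) (S.G y *ᵥ z y) +
    B.b y • vecMulVec (n y) (S.G y *ᵥ n y)
  zn : ∀ y ∈ B.W, bil (S.G y) (z y) (n y) = 1
  nz : ∀ y ∈ B.W, bil (S.G y) (n y) (z y) = 1

theorem DX1_Loc.swap {B : Block E4} {z n : E4 → V3} (D : R.DX1_Loc B z n) :
    R.DX1_Loc B.swap n z where
  A := ⟨D.A.2, D.A.1⟩
  N := D.N
  l := D.l
  s := D.s
  h := D.h
  X := fun y hy => by
    rw [D.X y hy, add_comm]
    rfl
  Xg := fun y hy => by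
    rw [D.Xg y hy, add_comm]
    rfl
  S2 := fun y hy => by
    rw [D.S2 y hy, mul_comm]
    rfl
  Nn := fun y hy => by
    rw [D.Nn y hy, add_comm]
    rfl
  zn := D.nz
  nz := D.zn

theorem DX1_loc (hNC : S.NC) {q : E4} (hq : q ∈ R.S2) :
    ∃ (B : Block E4) (z n : E4 → V3), q ∈ B.W ∧ R.DX1_Loc B z n := by
  obtain ⟨B, z, n, e, hqW, hB, hA, _, hN, h⟩ := R.block_at hNC hq
  refine ⟨B, z, n, hqW, ?_⟩
  have h0 : ∀ y ∈ B.W, y ≠ 0 := fun y hy => (hN hy).1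
  exact
    { A := hA
      N := hN
      l := fun y hy => (h y hy).1
      s := fun y hy => (h y hy).2.1
      h := fun y hy => (h y hy).2.2.1
      X := fun y hy => (h y hy).2.2.2.1
      Xg := fun y hy => (h y hy).2.2.2.2.1
      S2 := fun y hy => (h y hy).2.2.2.2.2.1
      Nn := fun y hy => (h y hy).2.2.2.2.2.2.2
      zn := fun y hy => (hB.frame y hy).zn
      nz := fun y hy => by
        rw [← (hB.frame y hy).zn]
        unfold bil
        have hs := S.symm y (h0 y hy)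
        rw [Matrix.dotProduct_mulVec, ← Matrix.mulVec_transpose, hs, dotProduct_comm] }

/-- `h` is constant along `Np` where `b = 0` -/
theorem DX1_h {B : Block E4} (hA : B.A) {y : E4} (hy : y ∈ B.W) (hb : B.b y = 0) :
    fderiv ℝ B.h y (B.Np y) = 0 := by
  have hX : ∀ x ∈ B.W, ContDiffAt ℝ 1 B.Np x := fun x hx =>
    (B.smooth_Np x hx).of_le (by exact_mod_cast le_top)
  obtain ⟨δ, hδ, hu⟩ := Pool.Agent.helper25.B2.exists_sol_unif B.isOpen_W hX
    (isCompact_singleton (x := y)) (by simpa using hy)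
  obtain ⟨γ, hγ0, hγ⟩ := hu y rfl
  have h0 : (0 : ℝ) ∈ Ioo (-δ) δ := ⟨by linarith, hδ⟩
  have hH := Block.block_H B hA ordConnected_Ioo hγ h0 (by rw [hγ0]; exact hb)
  have h1 := Block.BH_along hγ h0 (B.smooth_h _ (hγ.mem h0))
  have h2 : HasDerivAt (fun t => B.h (γ t)) 0 0 := by
    have h3 : (fun t => B.h (γ t)) =ᶠ[𝓝 0] fun _ => B.h (γ 0) := by
      filter_upwards [Ioo_mem_nhds h0.1 h0.2] with t ht
      exact (hH t ht).2.2.1
    exact (hasDerivAt_const (0 : ℝ) (B.h (γ 0))).congr_of_eventuallyEq h3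
  have h4 := h1.unique h2
  rw [hγ0] at h4
  exact h4

theorem DX1_core {B : Block E4} {z n : E4 → V3} (D : R.DX1_Loc B z n) {c b h₀ : ℝ} {x : E4}
    (hxW : x ∈ B.W) (hb : B.b x = 0) (hx : x ∈ R.Gs c b h₀)
    {y : ℝ → E4} {δ : ℝ} (hδ : 0 < δ) (hy : Sol R.Xg R.N y (Ioo (-δ) δ)) (h0 : y 0 = x) :
    ∃ δ' : ℝ, 0 < δ' ∧ ∀ t ∈ Ioo (-δ') δ', y t ∈ R.Gs c b h₀ := by
  obtain ⟨hx1, hx2, hx3, hx4, hx5⟩ := hx
  -- the field `u Np`
  have hX : ∀ x ∈ B.W, ContDiffAt ℝ 1 (fun x => B.u x • B.Np x) x := fun x hx =>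
    ((B.smooth_u x hx).smul (B.smooth_Np x hx)).of_le (by exact_mod_cast le_top)
  obtain ⟨δ₁, hδ₁, hu⟩ := Pool.Agent.helper25.B2.exists_sol_unif B.isOpen_W hX
    (isCompact_singleton (x := x)) (by simpa using hxW)
  obtain ⟨ζ, hζ0, hζ⟩ := hu x rfl
  set δ' := min δ δ₁ with hδ'
  have hδ'0 : 0 < δ' := lt_min hδ hδ₁
  refine ⟨δ', hδ'0, ?_⟩
  set I := Ioo (-δ') δ' with hI
  have hIc : I.OrdConnected := ordConnected_Ioo
  have hI0 : (0 : ℝ) ∈ I := ⟨by linarith, hδ'0⟩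
  have hζI : Sol (fun x => B.u x • B.Np x) B.W ζ I :=
    hζ.mono (Ioo_subset_Ioo (neg_le_neg (min_le_right _ _)) (min_le_right _ _))
  have hyI : Sol R.Xg R.N y I :=
    hy.mono (Ioo_subset_Ioo (neg_le_neg (min_le_left _ _)) (min_le_left _ _))
  have hW : ∀ t ∈ I, ζ t ∈ B.W := fun t ht => hζI.mem ht
  have hζc : ContinuousOn ζ I := hζI.continuousOn
  have hcont : ∀ {g : E4 → ℝ}, (∀ x ∈ B.W, ContDiffAt ℝ (⊤ : ℕ∞) g x) →
      ContinuousOn (fun t => g (ζ t)) I := by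
    intro g hg t ht
    exact ((hg _ (hW t ht)).continuousAt).comp_continuousWithinAt (hζc t ht)
  have hp : ∀ x ∈ B.W, ContDiffAt ℝ (⊤ : ℕ∞) (fun x => B.om x (B.Np x)) x := fun x hx =>
    (B.smooth_om x hx).clm_apply (B.smooth_Np x hx)
  have hder : ∀ {g : E4 → ℝ}, (∀ x ∈ B.W, ContDiffAt ℝ (⊤ : ℕ∞) g x) → ∀ t ∈ I,
      HasDerivAt (fun t => g (ζ t)) (B.u (ζ t) * fderiv ℝ g (ζ t) (B.Np (ζ t))) t := by
    intro g hg t ht
    have h1 := ((hg _ (hW t ht)).differentiableAt (by simp)).hasFDerivAt.comp_hasDerivAt t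
      (hζI.hasDerivAt ht)
    have h2 : fderiv ℝ g (ζ t) (B.u (ζ t) • B.Np (ζ t)) =
        B.u (ζ t) * fderiv ℝ g (ζ t) (B.Np (ζ t)) := by
      rw [map_smul, smul_eq_mul]
    rw [← h2]
    exact h1
  -- `b = 0`
  have hbz : ∀ t ∈ I, B.b (ζ t) = 0 := by
    refine Block.BH_linear (p := fun t => 2 * (B.u (ζ t) * B.om (ζ t) (B.Np (ζ t)))) hIc ?_ ?_ hI0
      (by rw [hζ0]; exact hb)
    · intro t ht
      have h1 := hder B.smooth_b t ht
      rw [B.db _ (hW t ht), B.cm_Np _ (hW t ht)] at h1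
      convert h1 using 1
      ring
    · exact continuousOn_const.mul ((hcont B.smooth_u).mul (hcont hp))
  have hvz : ∀ t ∈ I, B.v (ζ t) = 0 := fun t ht => D.A.2 _ (hW t ht) (hbz t ht)
  -- `ζ = y`
  have hζX : Sol R.Xg R.N ζ I := by
    intro t ht
    refine ⟨D.N (hW t ht), ?_⟩
    have h1 := hζI.hasDerivAt ht
    rw [D.Xg _ (hW t ht), hvz t ht, zero_smul, add_zero]
    exact h1
  have hXg : ∀ x ∈ R.N, ContDiffAt ℝ 1 R.Xg x := fun x hx =>
    (R.smN hx).2.2.2.2.2.2.2.of_le (by exact_mod_cast le_top)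
  have heq : EqOn y ζ I := Pool.Agent.helper25.B2.sol_unique R.N_cone.isOpen hXg hIc hyI hζX hI0
    (by rw [h0, hζ0])
  -- constants
  have hs : ∀ t ∈ I, B.s (ζ t) = B.s (ζ 0) := by
    refine Block.BH_const hIc (fun t ht => ?_) hI0
    have h1 := hder B.smooth_s t ht
    rw [B.ds _ (hW t ht), B.cm_Np _ (hW t ht), hvz t ht] at h1
    simpa using h1
  have hl : ∀ t ∈ I, B.l (ζ t) = B.l (ζ 0) := by
    refine Block.BH_const hIc (fun t ht => ?_) hI0
    have h1 := hder B.smooth_l t ht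
    rw [B.dl _ (hW t ht), B.ce_Np _ (hW t ht)] at h1
    simpa using h1
  have hh : ∀ t ∈ I, B.h (ζ t) = B.h (ζ 0) := by
    refine Block.BH_const hIc (fun t ht => ?_) hI0
    have h1 := hder B.smooth_h t ht
    rw [DX1_h D.A (hW t ht) (hbz t ht)] at h1
    simpa using h1
  have hh0 : ∀ t ∈ I, B.h (ζ t) = h₀ := by
    intro t ht
    rw [hh t ht, hζ0, D.h x hxW, hx4]
  -- `h₀ a = u²` at `x`
  have hvx : B.v x = 0 := D.A.2 _ hxW hb
  have hux : B.u x ^ 2 - h₀ * B.a x = 0 := by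
    have h1 := congrArg (fun A => A *ᵥ n x) hx5
    rw [D.Nn x hxW, hb, zero_smul, add_zero, D.X x hxW, hvx, zero_smul, add_zero,
      Matrix.mulVec_smul, smul_vecMulVec, vecMulVec_smul] at h1
    simp only [Matrix.smul_mulVec, vecMulVec_mulVec] at h1
    have h2 : (S.G x *ᵥ z x) ⬝ᵥ n x = 1 := by
      rw [dotProduct_comm]
      exact D.nz x hxW
    rw [h2] at h1
    have h3 : (B.u x ^ 2 - h₀ * B.a x) • z x = 0 := by
      rw [sub_smul, sub_eq_zero]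
      simp only [MulOpposite.op_one, one_smul] at h1
      rw [← smul_smul, h1, smul_smul, ← sq]
    have hz : z x ≠ 0 := by
      intro h4
      have h5 := D.zn x hxW
      rw [h4] at h5
      unfold bil at h5
      rw [zero_dotProduct] at h5
      exact zero_ne_one h5
    exact (smul_eq_zero.1 h3).resolve_right hz
  have hua : ∀ t ∈ I, B.u (ζ t) ^ 2 - h₀ * B.a (ζ t) = 0 := by
    refine Block.BH_linear (y := fun t => B.u (ζ t) ^ 2 - h₀ * B.a (ζ t))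
      (p := fun t => -2 * (B.u (ζ t) * B.om (ζ t) (B.Np (ζ t)))) hIc ?_ ?_ hI0
      (by simp only [hζ0]; exact hux)
    · intro t ht
      have h1 := hder B.smooth_u t ht
      have h2 := hder B.smooth_a t ht
      rw [B.du_Np _ (hW t ht), hh0 t ht] at h1
      rw [B.da _ (hW t ht), B.cp_Np _ (hW t ht)] at h2
      have h3 := (h1.pow 2).sub (h2.const_mul h₀)
      have h4 : -2 * (B.u (ζ t) * (B.om (ζ t)) (B.Np (ζ t))) * (B.u (ζ t) ^ 2 - h₀ * B.a (ζ t)) =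
          ((2 : ℕ) : ℝ) * B.u (ζ t) ^ (2 - 1) *
            (B.u (ζ t) * (h₀ - (B.om (ζ t)) (B.Np (ζ t)) * B.u (ζ t))) -
          h₀ * (B.u (ζ t) * (-2 * B.a (ζ t) * (B.om (ζ t)) (B.Np (ζ t)) + 2 * B.u (ζ t) * 1)) := by
        push_cast
        ring
      rw [h4]
      exact h3
    · exact continuousOn_const.mul ((hcont B.smooth_u).mul (hcont hp))
  -- conclusion
  intro t ht
  rw [heq ht]
  have hS2 : ζ t ∈ R.S2 := by
    rw [D.S2 _ (hW t ht), hbz t ht, mul_zero]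
  refine ⟨hS2, ?_, ?_, ?_, ?_⟩
  · rw [← R.m_S2 hS2, ← D.s _ (hW t ht), hs t ht, hζ0, D.s x hxW, R.m_S2 hx1, hx2]
  · rw [← D.l _ (hW t ht), hl t ht, hζ0, D.l x hxW, hx3]
  · rw [← D.h _ (hW t ht), hh0 t ht]
  · rw [D.Nn _ (hW t ht), hbz t ht, zero_smul, add_zero, D.X _ (hW t ht), hvz t ht, zero_smul,
      add_zero, Matrix.mulVec_smul, smul_vecMulVec, vecMulVec_smul, smul_smul, smul_smul]
    congr 1
    have := hua t ht
    linarith [sq (B.u (ζ t))]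

/-- DX1: `X`-curves starting in `Gs` stay in `Gs` for a short time -/
theorem DX1 (hNC : S.NC) {c b h₀ : ℝ} (hh : h₀ ≠ 0) {x : E4} (hx : x ∈ R.Gs c b h₀)
    {y : ℝ → E4} {δ : ℝ} (hδ : 0 < δ) (hy : Sol R.Xg R.N y (Ioo (-δ) δ)) (h0 : y 0 = x) :
    ∃ δ' : ℝ, 0 < δ' ∧ ∀ t ∈ Ioo (-δ') δ', y t ∈ R.Gs c b h₀ := by
  have _ := hh
  obtain ⟨B, z, n, hxW, D⟩ := R.DX1_loc hNC hx.1
  rcases mul_eq_zero.1 ((D.S2 x hxW).1 hx.1) with ha | hb
  · exact R.DX1_core D.swap hxW ha hx hδ hy h0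
  · exact R.DX1_core D hxW hb hx hδ hy h0

end Roots

end Pool.Agent.helper68.B2
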