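import Pool.Agent.helper68.B2.Defs3
import Pool.Agent.helper58.B2.FG
import Pool.Agent.helper9.B2.T1a
import Pool.Agent.helper49.B2.FR1
import Pool.Agent.helper97.B2.DX1

/-! # MP_b2b189_gt: module DX2, completeness of `X` on `Gs` -/

set_option autoImplicit false

namespace Pool.Agent.helper68.B2

open scoped ContDiff Topology Matrix
open Matrix Set
open Pool.Agent.helper25.B2 (Sol Block)

variable {S : Geo}

namespace Roots
variable (R : Roots S)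

/-- the norm is constant along the curves of `Xg` -/
theorem DX2_norm {γ : ℝ → E4} {I : Set ℝ} (hI : I.OrdConnected) (hγ : Sol R.Xg R.N γ I)
    (h0 : (0 : ℝ) ∈ I) {t : ℝ} (ht : t ∈ I) : ‖γ t‖ = ‖γ 0‖ := by
  have h1 : ∀ t ∈ I, HasDerivAt (fun t => ‖γ t‖ ^ 2) 0 t := by
    intro t ht
    have h2 := (hγ.hasDerivAt ht).norm_sq
    have h3 : inner ℝ (γ t) (R.Xg (γ t)) = 0 := T.inner_fld _ _
    rw [h3, mul_zero] at h2
    exact h2
  have h2 := Block.BH_const hI h1 h0 t ht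
  exact (sq_eq_sq₀ (norm_nonneg _) (norm_nonneg _)).1 h2

/-- curves of `X` starting in `Gs` stay in `Gs` -/
theorem DX2_stay (hNC : S.NC) {c b h₀ : ℝ} (hcb : b ≠ c) (hh : h₀ ≠ 0) {γ : ℝ → E4} {s : ℝ}
    (hs : 0 < s) (hγ : Sol R.Xg R.N γ (Ioo (-s) s)) (h0 : γ 0 ∈ R.Gs c b h₀) :
    ∀ t ∈ Ioo (-s) s, γ t ∈ R.Gs c b h₀ := by
  have hI0 : (0 : ℝ) ∈ Ioo (-s) s := ⟨by linarith, hs⟩
  have hpc : IsPreconnected (Ioo (-s) s) := isPreconnected_Ioo
  set U : Set ℝ := {t | t ∈ Ioo (-s) s ∧ γ t ∈ R.Gs c b h₀} with hU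
  have hUo : IsOpen U := by
    rw [isOpen_iff_mem_nhds]
    rintro t ⟨ht, htG⟩
    -- shift
    have hsh := hγ.shift t
    set δ := min (t + s) (s - t) with hδ
    have hδ0 : 0 < δ := lt_min (by linarith [ht.1]) (by linarith [ht.2])
    have hy : Sol R.Xg R.N (fun r => γ (r + t)) (Ioo (-δ) δ) := by
      refine hsh.mono ?_
      intro r hr
      have h1 : δ ≤ t + s := min_le_left _ _
      have h2 : δ ≤ s - t := min_le_right _ _
      exact ⟨by linarith [hr.1], by linarith [hr.2]⟩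
    obtain ⟨δ', hδ', h3⟩ := R.DX1 hNC hh htG hδ0 hy (by simp)
    have h4 : Ioo (t - δ') (t + δ') ∩ Ioo (-s) s ∈ 𝓝 t :=
      Filter.inter_mem (Ioo_mem_nhds (by linarith) (by linarith)) (Ioo_mem_nhds ht.1 ht.2)
    refine Filter.mem_of_superset h4 ?_
    rintro r ⟨hr, hr'⟩
    refine ⟨hr', ?_⟩
    have h5 := h3 (r - t) ⟨by linarith [hr.1], by linarith [hr.2]⟩
    simpa using h5
  set V : Set ℝ := {t | t ∈ Ioo (-s) s ∧ γ t ∉ R.Gs c b h₀} with hV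
  have hVo : IsOpen V := by
    rw [isOpen_iff_mem_nhds]
    rintro t ⟨ht, htG⟩
    have hc : ContinuousAt γ t := (hγ.hasDerivAt ht).continuousAt
    have h1 : γ t ∉ closure (R.Gs c b h₀) := fun h => htG (R.Gs_closed hcb (hγ.mem ht).1 h)
    have h2 : (closure (R.Gs c b h₀))ᶜ ∈ 𝓝 (γ t) := isClosed_closure.isOpen_compl.mem_nhds h1
    filter_upwards [hc h2, Ioo_mem_nhds ht.1 ht.2] with r hr hr'
    exact ⟨hr', fun h => hr (subset_closure h)⟩
  intro t ht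
  by_contra hcon
  obtain ⟨r, _, hrU, hrV⟩ := hpc U V hUo hVo
    (fun r hr => by
      by_cases h : γ r ∈ R.Gs c b h₀
      · exact Or.inl ⟨hr, h⟩
      · exact Or.inr ⟨hr, h⟩) ⟨0, hI0, hI0, h0⟩ ⟨t, ht, ht, hcon⟩
  exact hrV.2 hrU.2

/-- DX2: completeness -/
theorem DX2 (hNC : S.NC) {c b h₀ : ℝ} (hcb : b ≠ c) (hh : h₀ ≠ 0) {x : E4}
    (hx : x ∈ R.Gs c b h₀) :
    ∃ y : ℝ → E4, y 0 = x ∧ Sol R.Xg R.N y univ ∧ ∀ t, y t ∈ R.Gs c b h₀ ∧ ‖y t‖ = ‖x‖ := by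
  have hx0 : x ≠ 0 := (R.S2_sub_N hx.1).1
  have hXg : ∀ x ∈ R.N, ContDiffAt ℝ 1 R.Xg x := fun x hx =>
    (R.smN hx).2.2.2.2.2.2.2.of_le (by exact_mod_cast le_top)
  -- the compact set
  set K : Set E4 := R.Gs c b h₀ ∩ Metric.sphere 0 ‖x‖ with hK
  have hKc : IsCompact K := by
    refine (isCompact_sphere (0 : E4) ‖x‖).of_isClosed_subset ?_ inter_subset_right
    refine isClosed_of_closure_subset ?_
    intro w hw
    have h1 : w ∈ Metric.sphere (0 : E4) ‖x‖ := by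
      have := closure_mono (inter_subset_right : K ⊆ Metric.sphere 0 ‖x‖) hw
      rwa [Metric.isClosed_sphere.closure_eq] at this
    have h2 : w ≠ 0 := by
      rintro rfl
      rw [mem_sphere_zero_iff_norm, norm_zero] at h1
      exact hx0 (norm_eq_zero.1 h1.symm)
    exact ⟨R.Gs_closed hcb h2 (closure_mono inter_subset_left hw), h1⟩
  have hKN : K ⊆ R.N := fun w hw => R.S2_sub_N hw.1.1
  obtain ⟨γ, hγ0, hγ⟩ := Pool.Agent.helper25.B2.exists_sol_global R.N_cone.isOpen hXg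
    (R.S2_sub_N hx.1) (fun S₀ _ => ⟨K, hKc, hKN, by
      intro s _ hs γ hγ0 hγ t ht
      have hI0 : (0 : ℝ) ∈ Ioo (-s) s := ⟨by linarith, hs⟩
      refine ⟨R.DX2_stay hNC hcb hh hs hγ (by rw [hγ0]; exact hx) t ht, ?_⟩
      rw [mem_sphere_zero_iff_norm, R.DX2_norm ordConnected_Ioo hγ hI0 ht, hγ0]⟩)
  refine ⟨γ, hγ0, hγ, fun t => ?_⟩
  have hs : 0 < |t| + 1 := by positivity
  have ht : t ∈ Ioo (-(|t| + 1)) (|t| + 1) :=
    ⟨by linarith [neg_abs_le t], by linarith [le_abs_self t]⟩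
  refine ⟨R.DX2_stay hNC hcb hh hs (hγ.mono (subset_univ _)) (by rw [hγ0]; exact hx) t ht, ?_⟩
  rw [R.DX2_norm ordConnected_univ hγ (mem_univ _) (mem_univ t), hγ0]

end Roots

end Pool.Agent.helper68.B2
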